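import Mathlib
import Pool.Agent.H90.STE.Stmts
import Pool.Agent.H40.STK.PRD
import Pool.Agent.H34.STK.PRM
import Pool.Agent.H57.STK.SUM

/-!
# Row KQ: the key inequality for the Boolean lattice
-/

set_option autoImplicit false

namespace Pool.STE

open Finset Real
open Pool.Agent.H49.Ent Pool.Agent.H32.Dense Pool.STK Pool.KA

namespace KQ31

variable {m n : ℕ} {Ω : Type}

/-- Partial sums of the copies. -/
def zq (A : Ω → QL m n) (S : Finset (Fin n)) (v : Finset (Fin n) → Ω) : QL m n :=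
  ∑ w ∈ univ.filter (fun w => S ⊆ w), A (v w)

/-- The slices of the copies. -/
def sl (A : Ω → QL m n) (v : Finset (Fin n) → Ω) (w : Finset (Fin n)) : Fin m → ℤ :=
  evq w (A (v w))

lemma zq_fst (A : Ω → QL m n) (S : Finset (Fin n)) (v : Finset (Fin n) → Ω) :
    (zq A S v).1 = ∑ w ∈ univ.filter (fun w => S ⊆ w), (A (v w)).1 := Prod.fst_sum

lemma zq_snd (A : Ω → QL m n) (S : Finset (Fin n)) (v : Finset (Fin n) → Ω) (i : Fin n) :
    (zq A S v).2 i = ∑ w ∈ univ.filter (fun w => S ⊆ w), (A (v w)).2 i := by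
  unfold zq
  rw [Prod.snd_sum, Finset.sum_apply]

/-- The exact relations. -/
lemma rel (A : Ω → QL m n) (S : Finset (Fin n)) (v : Finset (Fin n) → Ω) :
    ∑ w ∈ univ.filter (fun w => S ⊆ w), sl A v w =
      (zq A S v).1 + ∑ i, (zq A (insert i S) v).2 i := by
  unfold sl evq
  rw [sum_add_distrib, zq_fst]
  congr 1
  simp_rw [zq_snd]
  refine Finset.sum_comm' fun w i => ?_
  simp only [mem_filter, mem_univ, true_and, and_true, insert_subset_iff]
  tauto

/-- Sums of the real directions. -/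
def Ys (y : Ω → Fin m → ℝ) (S : Finset (Fin n)) (v : Finset (Fin n) → Ω) (c : Fin m) : ℝ :=
  ∑ w ∈ univ.filter (fun w => S ⊆ w), y (v w) c

lemma zq_near {A : Ω → QL m n} {h : Fin n → ℝ} {y : Ω → Fin m → ℝ} {E : ℝ} (hE : 0 ≤ E)
    (hA : ClQ A h y E) (S : Finset (Fin n)) (v : Finset (Fin n) → Ω) (i : Fin n) (c : Fin m) :
    |((zq A S v).2 i c : ℝ) - h i * Ys y S v c| ≤ 2 ^ n * E := by
  rw [zq_snd, Finset.sum_apply, Ys, mul_sum]
  push_cast
  rw [← sum_sub_distrib]
  refine (abs_sum_le_sum_abs _ _).trans ?_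
  refine (sum_le_sum fun w _ => hA (v w) i c).trans ?_
  rw [sum_const, nsmul_eq_mul]
  refine mul_le_mul_of_nonneg_right ?_ hE
  have h1 : (univ.filter (fun w : Finset (Fin n) => S ⊆ w)).card ≤ 2 ^ n := by
    refine (card_filter_le _ _).trans ?_
    simp
  exact_mod_cast h1

/-- Two samples with the same slices and the same sum over the up-set of `S`. -/
lemma rel_diff {A : Ω → QL m n} {v v' : Finset (Fin n) → Ω} {S : Finset (Fin n)}
    (he : sl A v = sl A v') (hz : zq A S v = zq A S v') (c : Fin m) :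
    ∑ i ∈ Sᶜ, (((zq A (insert i S) v).2 i c : ℝ) - (zq A (insert i S) v').2 i c) = 0 := by
  have h1 := rel A S v
  have h2 := rel A S v'
  rw [he, h2, hz] at h1
  have h3 := add_left_cancel h1
  have h4 := congrFun h3 c
  rw [Finset.sum_apply, Finset.sum_apply] at h4
  have h5 : ∑ i, (((zq A (insert i S) v).2 i c : ℝ) - (zq A (insert i S) v').2 i c) = 0 := by
    rw [sum_sub_distrib]
    have : ((∑ i, (zq A (insert i S) v').2 i c : ℤ) : ℝ) = (∑ i, (zq A (insert i S) v).2 i c : ℤ) := by
      exact_mod_cast h4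
    push_cast at this
    linarith
  rw [← Finset.sum_add_sum_compl S] at h5
  have h6 : ∑ i ∈ S, (((zq A (insert i S) v).2 i c : ℝ) - (zq A (insert i S) v').2 i c) = 0 := by
    refine sum_eq_zero fun i hi => ?_
    rw [insert_eq_of_mem hi, hz, sub_self]
  linarith

/-- Geometry of one level. -/
lemma geo {A : Ω → QL m n} {h : Fin n → ℝ} {y : Ω → Fin m → ℝ} {E : ℝ} (hE : 0 ≤ E)
    (hh : ∀ i, h i ≠ 0 ∧ |h i| ≤ 1) (hA : ClQ A h y E) {j : ℕ} {Φ : Finset (Finset (Fin n))}
    {c d : Finset (Fin n) → Finset (Fin n) → ℝ}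
    (hΦ : ∀ Y : Finset (Fin n) → ℝ, ∀ φ ∈ Φ,
      Y φ = ∑ S ∈ powersetCard (j + 1) univ \ Φ, c φ S * Y S +
        ∑ S ∈ powersetCard j univ, d φ S * ∑ i ∈ Sᶜ, Y (insert i S))
    {v v' : Finset (Fin n) → Ω} (he : sl A v = sl A v')
    (h1 : ∀ S ∈ powersetCard j univ, zq A S v = zq A S v')
    (h2 : ∀ S ∈ powersetCard (j + 1) univ \ Φ, zq A S v = zq A S v') (i₀ : Fin n)
    {φ : Finset (Fin n)} (hφ : φ ∈ Φ) (k : Fin m) {D : ℝ}
    (hD : ∑ S ∈ powersetCard (j + 1) univ \ Φ, |c φ S| + ∑ S ∈ powersetCard j univ, |d φ S| ≤ D) :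
    |((zq A φ v).2 i₀ k : ℝ) - (zq A φ v').2 i₀ k| ≤
      (D * (1 + n) + 1) * 2 ^ (n + 1) * (E / ∏ i, |h i|) := by
  set dY : Finset (Fin n) → ℝ := fun S => Ys y S v k - Ys y S v' k with hdY
  set W : Finset (Fin n) → ℝ := fun S => (∏ i ∈ S, h i) * dY S with hW
  set P : ℝ := ∏ i, |h i| with hP
  have habs : ∀ i, 0 < |h i| := fun i => abs_pos.2 (hh i).1
  have hPpos : 0 < P := prod_pos fun i _ => habs i
  have hprod1 : ∀ S : Finset (Fin n), |∏ i ∈ S, h i| ≤ 1 := by
    intro S
    rw [abs_prod]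
    exact prod_le_one (fun i _ => abs_nonneg _) fun i _ => (hh i).2
  have hprodP : ∀ S : Finset (Fin n), P ≤ |∏ i ∈ S, h i| := by
    intro S
    rw [abs_prod, hP, ← Finset.prod_mul_prod_compl S]
    have h3 : ∏ i ∈ Sᶜ, |h i| ≤ 1 := prod_le_one (fun i _ => abs_nonneg _) fun i _ => (hh i).2
    exact mul_le_of_le_one_right (prod_nonneg fun i _ => abs_nonneg _) h3
  have hP1 : P ≤ 1 := (hprodP univ).trans (hprod1 univ)
  have hnear : ∀ S i, |(((zq A S v).2 i k : ℝ) - (zq A S v').2 i k) - h i * dY S| ≤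
      2 ^ (n + 1) * E := by
    intro S i
    have a1 := zq_near hE hA S v i k
    have a2 := zq_near hE hA S v' i k
    have : (((zq A S v).2 i k : ℝ) - (zq A S v').2 i k) - h i * dY S =
        (((zq A S v).2 i k : ℝ) - h i * Ys y S v k) -
          (((zq A S v').2 i k : ℝ) - h i * Ys y S v' k) := by
      rw [hdY]
      ring
    rw [this]
    refine (abs_sub _ _).trans ?_
    calc _ ≤ 2 ^ n * E + 2 ^ n * E := add_le_add a1 a2
      _ = 2 ^ (n + 1) * E := by ring
  set e₀ : ℝ := 2 ^ (n + 1) * E with he₀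
  have he₀0 : 0 ≤ e₀ := by positivity
  have hi0 := habs i₀
  set B : ℝ := (1 + n) * e₀ / |h i₀| with hB
  have hB0 : 0 ≤ B := by positivity
  have hB1 : e₀ / |h i₀| ≤ B := by
    rw [hB]
    gcongr
    have : (0 : ℝ) ≤ n := by positivity
    nlinarith
  have hB2 : n * e₀ ≤ B := by
    rw [hB, le_div_iff₀ hi0]
    have h3 : (n : ℝ) * e₀ * |h i₀| ≤ n * e₀ * 1 := by
      gcongr
      exact (hh i₀).2
    nlinarith
  have ha : ∀ S ∈ powersetCard (j + 1) univ \ Φ, |W S| ≤ B := by
    intro S hS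
    have a1 := hnear S i₀
    rw [h2 S hS, sub_self, zero_sub, abs_neg, abs_mul] at a1
    have a2 : |dY S| ≤ e₀ / |h i₀| := by
      rw [le_div_iff₀ hi0]
      linarith
    have a3 : |W S| ≤ |dY S| := by
      rw [hW]
      dsimp only
      rw [abs_mul]
      exact mul_le_of_le_one_left (abs_nonneg _) (hprod1 S)
    exact a3.trans (a2.trans hB1)
  have hb : ∀ S ∈ powersetCard j univ, |∑ i ∈ Sᶜ, W (insert i S)| ≤ B := by
    intro S hS
    have a1 := rel_diff he (h1 S hS) k
    have a2 : ∑ i ∈ Sᶜ, W (insert i S) = (∏ i ∈ S, h i) * ∑ i ∈ Sᶜ, h i * dY (insert i S) := by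
      rw [mul_sum]
      refine sum_congr rfl fun i hi => ?_
      rw [hW]
      dsimp only
      rw [prod_insert (mem_compl.1 hi)]
      ring
    have a3 : |∑ i ∈ Sᶜ, h i * dY (insert i S)| ≤ n * e₀ := by
      have : ∑ i ∈ Sᶜ, h i * dY (insert i S) = -∑ i ∈ Sᶜ,
          ((((zq A (insert i S) v).2 i k : ℝ) - (zq A (insert i S) v').2 i k) -
            h i * dY (insert i S)) := by
        rw [sum_sub_distrib, a1]
        ring
      rw [this, abs_neg]
      refine (abs_sum_le_sum_abs _ _).trans ?_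
      refine (sum_le_sum fun i _ => hnear (insert i S) i).trans ?_
      rw [sum_const, nsmul_eq_mul]
      refine mul_le_mul_of_nonneg_right ?_ he₀0
      have : (Sᶜ).card ≤ n := by
        refine (card_le_univ _).trans ?_
        simp
      exact_mod_cast this
    rw [a2, abs_mul]
    refine le_trans ?_ hB2
    refine le_trans (mul_le_of_le_one_left (abs_nonneg _) (hprod1 S)) a3
  have hD0 : 0 ≤ D := le_trans (add_nonneg (sum_nonneg fun _ _ => abs_nonneg _)
    (sum_nonneg fun _ _ => abs_nonneg _)) hD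
  have hc : |W φ| ≤ D * B := by
    rw [hΦ W φ hφ]
    refine (abs_add_le _ _).trans ?_
    have a1 : |∑ S ∈ powersetCard (j + 1) univ \ Φ, c φ S * W S| ≤
        (∑ S ∈ powersetCard (j + 1) univ \ Φ, |c φ S|) * B := by
      rw [sum_mul]
      refine (abs_sum_le_sum_abs _ _).trans (sum_le_sum fun S hS => ?_)
      rw [abs_mul]
      exact mul_le_mul_of_nonneg_left (ha S hS) (abs_nonneg _)
    have a2 : |∑ S ∈ powersetCard j univ, d φ S * ∑ i ∈ Sᶜ, W (insert i S)| ≤
        (∑ S ∈ powersetCard j univ, |d φ S|) * B := by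
      rw [sum_mul]
      refine (abs_sum_le_sum_abs _ _).trans (sum_le_sum fun S hS => ?_)
      rw [abs_mul]
      exact mul_le_mul_of_nonneg_left (hb S hS) (abs_nonneg _)
    calc _ ≤ (∑ S ∈ powersetCard (j + 1) univ \ Φ, |c φ S|) * B +
          (∑ S ∈ powersetCard j univ, |d φ S|) * B := add_le_add a1 a2
      _ = (∑ S ∈ powersetCard (j + 1) univ \ Φ, |c φ S| + ∑ S ∈ powersetCard j univ, |d φ S|) * B := by
          ring
      _ ≤ D * B := mul_le_mul_of_nonneg_right hD hB0
  have hd : |h i₀ * dY φ| ≤ D * ((1 + n) * e₀) / P := by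
    have a1 : |W φ| = |∏ i ∈ φ, h i| * |dY φ| := by
      rw [hW]
      dsimp only
      rw [abs_mul]
    have a2 : P * |dY φ| ≤ D * B := by
      refine le_trans ?_ hc
      rw [a1]
      exact mul_le_mul_of_nonneg_right (hprodP φ) (abs_nonneg _)
    rw [abs_mul, le_div_iff₀ hPpos]
    calc |h i₀| * |dY φ| * P = |h i₀| * (P * |dY φ|) := by ring
      _ ≤ |h i₀| * (D * B) := mul_le_mul_of_nonneg_left a2 (abs_nonneg _)
      _ = D * ((1 + n) * e₀) := by
          rw [hB]
          field_simp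
  have hfin := hnear φ i₀
  have h5 : |((zq A φ v).2 i₀ k : ℝ) - (zq A φ v').2 i₀ k| ≤ |h i₀ * dY φ| + e₀ := by
    have : ((zq A φ v).2 i₀ k : ℝ) - (zq A φ v').2 i₀ k = h i₀ * dY φ +
        ((((zq A φ v).2 i₀ k : ℝ) - (zq A φ v').2 i₀ k) - h i₀ * dY φ) := by ring
    rw [this]
    exact (abs_add_le _ _).trans (add_le_add_right hfin _)
  have h6 : e₀ ≤ e₀ / P := by
    rw [le_div_iff₀ hPpos]
    exact mul_le_of_le_one_right he₀0 hP1
  calc _ ≤ |h i₀ * dY φ| + e₀ := h5
    _ ≤ D * ((1 + n) * e₀) / P + e₀ / P := add_le_add hd h6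
    _ = _ := by
        rw [he₀]
        field_simp

/-- The slices and some of the partial sums. -/
def TS (A : Ω → QL m n) (F : Finset (Finset (Fin n))) (v : Finset (Fin n) → Ω) :
    (Finset (Fin n) → Fin m → ℤ) × (Finset (Fin n) → QL m n) :=
  (sl A v, fun S => if S ∈ F then zq A S v else 0)

lemma TS_sl {A : Ω → QL m n} {F : Finset (Finset (Fin n))} {v v' : Finset (Fin n) → Ω}
    (h : TS A F v = TS A F v') : sl A v = sl A v' := (Prod.ext_iff.mp h).1

lemma TS_zq {A : Ω → QL m n} {F : Finset (Finset (Fin n))} {v v' : Finset (Fin n) → Ω}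
    (h : TS A F v = TS A F v') {S : Finset (Fin n)} (hS : S ∈ F) : zq A S v = zq A S v' := by
  have h1 := congrFun (Prod.ext_iff.mp h).2 S
  simpa [TS, hS] using h1

lemma TS_ext {A : Ω → QL m n} {F : Finset (Finset (Fin n))} {v v' : Finset (Fin n) → Ω}
    (h : sl A v = sl A v') (h2 : ∀ S ∈ F, zq A S v = zq A S v') : TS A F v = TS A F v' := by
  refine Prod.ext h (funext fun S => ?_)
  by_cases hS : S ∈ F
  · simp [TS, hS, h2 S hS]
  · simp [TS, hS]

variable [Fintype Ω]

lemma cost_one {q : (Finset (Fin n) → Ω) → ℝ} (hq : IsLaw q) (A : Ω → QL m n)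
    (F : Finset (Finset (Fin n))) (S : Finset (Fin n)) :
    H q (TS A (insert S F)) ≤ H q (TS A F) + H q (zq A S) := by
  refine subadd hq.nonneg hq.sum_one ?_
  intro v v' _ _ h
  have h1 := Prod.ext_iff.mp h
  refine TS_ext (TS_sl h1.1) fun R hR => ?_
  rcases mem_insert.1 hR with rfl | hR
  · exact h1.2
  · exact TS_zq h1.1 hR

lemma cost_two {q : (Finset (Fin n) → Ω) → ℝ} (hq : IsLaw q) (A : Ω → QL m n)
    (F : Finset (Finset (Fin n))) (S : Finset (Fin n)) (i : Fin n) {few : ℝ}
    (hf : CH q (fun v => (zq A S v).2 i) (TS A F) ≤ few) :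
    H q (TS A (insert S F)) ≤ H q (TS A F) + (H q (zq A S) -
      H q (fun v => (zq A S v).2 i) + few) := by
  have h1 := submod (p := q) hq.nonneg (X := fun v => ((zq A S v).2 i, TS A F v)) (Y := zq A S)
    (Z := fun v => (zq A S v).2 i) (W := TS A (insert S F))
    (fun v v' _ _ h => (Prod.ext_iff.mp h).1) (fun v v' _ _ h => by simp only [h])
    (fun v v' _ _ h => by
      have h1 := Prod.ext_iff.mp h
      have h2 := Prod.ext_iff.mp h1.1
      refine TS_ext (TS_sl h2.2) fun R hR => ?_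
      rcases mem_insert.1 hR with rfl | hR
      · exact h1.2
      · exact TS_zq h2.2 hR)
  unfold CH at hf
  linarith

lemma cost_many {q : (Finset (Fin n) → Ω) → ℝ} (A : Ω → QL m n)
    (F : Finset (Finset (Fin n))) {K : ℝ} (G : Finset (Finset (Fin n)))
    (h : ∀ F' : Finset (Finset (Fin n)), F ⊆ F' → ∀ S ∈ G,
      H q (TS A (insert S F')) ≤ H q (TS A F') + K) :
    H q (TS A (F ∪ G)) ≤ H q (TS A F) + G.card * K := by
  induction G using Finset.induction_on with
  | empty => simp
  | insert S G hS ih =>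
    have h1 := ih fun F' hF' R hR => h F' hF' R (mem_insert_of_mem hR)
    have h2 := h (F ∪ G) subset_union_left S (mem_insert_self _ _)
    rw [union_insert, card_insert_of_notMem hS]
    push_cast
    linarith

omit [Fintype Ω] in
/-- The slices and all proper partial sums determine the copies. -/
lemma det_all {A : Ω → QL m n} {v v' : Finset (Fin n) → Ω} (he : sl A v = sl A v')
    (hz : ∀ S : Finset (Fin n), S.card < n → zq A S v = zq A S v') (w : Finset (Fin n)) :
    A (v w) = A (v' w) := by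
  -- the full sum
  have htop : A (v univ) = A (v' univ) := by
    have hfull : ∀ v : Finset (Fin n) → Ω, zq A univ v = A (v univ) := by
      intro v
      unfold zq
      have : (univ.filter fun w : Finset (Fin n) => univ ⊆ w) = {univ} := by
        ext w
        simp [univ_subset_iff]
      rw [this, sum_singleton]
    have h2 : (A (v univ)).2 = (A (v' univ)).2 := by
      funext i c
      have hS : (univ.erase i : Finset (Fin n)).card < n := by
        rw [card_erase_of_mem (mem_univ i), card_univ, Fintype.card_fin]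
        have := i.pos
        omega
      have h3 := rel_diff he (hz _ hS) c
      have h4 : (univ.erase i : Finset (Fin n))ᶜ = {i} := by
        ext x
        simp
      rw [h4, sum_singleton, insert_erase (mem_univ i), hfull, hfull, sub_eq_zero] at h3
      exact_mod_cast h3
    have h5 := congrFun he univ
    unfold sl evq at h5
    rw [h2] at h5
    exact Prod.ext (add_right_cancel h5) h2
  have hall : ∀ S : Finset (Fin n), zq A S v = zq A S v' := by
    intro S
    by_cases hS : S.card < n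
    · exact hz S hS
    · have : S = univ := by
        apply eq_univ_of_card
        have := card_le_univ S
        rw [Fintype.card_fin] at this ⊢
        omega
      subst this
      unfold zq
      have : (univ.filter fun w : Finset (Fin n) => univ ⊆ w) = {univ} := by
        ext w
        simp [univ_subset_iff]
      rw [this, sum_singleton, sum_singleton, htop]
  -- inversion
  have key : ∀ N : ℕ, ∀ w : Finset (Fin n), wᶜ.card ≤ N → A (v w) = A (v' w) := by
    intro N
    induction N with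
    | zero =>
      intro w hw
      have : w = univ := by
        have h6 : wᶜ = ∅ := card_eq_zero.1 (by omega)
        rwa [compl_eq_empty_iff] at h6
      rw [this]
      exact htop
    | succ N ih =>
      intro w hw
      have h7 := hall w
      unfold zq at h7
      have hmem : w ∈ univ.filter fun w' : Finset (Fin n) => w ⊆ w' := by simp
      rw [← add_sum_erase _ _ hmem, ← add_sum_erase _ _ hmem] at h7
      have h8 : ∑ x ∈ (univ.filter fun w' : Finset (Fin n) => w ⊆ w').erase w, A (v x) =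
          ∑ x ∈ (univ.filter fun w' : Finset (Fin n) => w ⊆ w').erase w, A (v' x) := by
        refine sum_congr rfl fun x hx => ih x ?_
        rw [mem_erase, mem_filter] at hx
        have h9 : w ⊂ x := hx.2.2.ssubset_of_ne (Ne.symm hx.1)
        have h10 : xᶜ.card < wᶜ.card := card_lt_card (compl_ssubset_compl.2 h9)
        omega
      rw [h8] at h7
      exact add_right_cancel h7
  exact key _ w le_rfl

omit [Fintype Ω] in
lemma zq_sub (A : Ω → QL m n) (S : Finset (Fin n)) (v : Finset (Fin n) → Ω) :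
    zq A S v = ∑ i : {w : Finset (Fin n) // S ⊆ w}, (1 : ℤ) • A (v i.1) := by
  unfold zq
  rw [Finset.sum_subtype (univ.filter fun w : Finset (Fin n) => S ⊆ w) (p := fun w => S ⊆ w)
    (fun x => by simp)]
  exact sum_congr rfl fun i _ => (one_zsmul _).symm

lemma H_zq_le {p : Ω → ℝ} (hp : IsLaw p) (A : Ω → QL m n) (S : Finset (Fin n)) :
    H (prd p) (zq A S) ≤ H (prd p) (TQ A) := by
  have h1 := prm_thm Ω (Finset (Fin n)) {w : Finset (Fin n) // S ⊆ w} p hp (fun i => i.1)
    Subtype.val_injective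
  have h2 := h1.H (fun u : {w : Finset (Fin n) // S ⊆ w} → Ω => ∑ i, (1 : ℤ) • A (u i))
  have h3 := sum_thm prd_thm prm_thm Ω (Finset (Fin n)) {w : Finset (Fin n) // S ⊆ w} (QL m n) p A
    (fun _ => 1) (fun i => i.1) hp Subtype.val_injective
  have e1 : zq A S = fun v => ∑ i : {w : Finset (Fin n) // S ⊆ w}, (1 : ℤ) • A (v i.1) :=
    funext fun v => zq_sub A S v
  have e2 : TQ A = fun v : Finset (Fin n) → Ω => ∑ i, (1 : ℤ) • A (v i) := by
    funext v
    exact sum_congr rfl fun i _ => (one_zsmul _).symm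
  rw [e1, h2, e2]
  exact h3

lemma H_dir_le {p : Ω → ℝ} (hp : IsLaw p) (A : Ω → QL m n) (S : Finset (Fin n)) (i₀ : Fin n) :
    H p (fun ω => (A ω).2 i₀) ≤ H (prd p) (fun v => (zq A S v).2 i₀) := by
  have h1 := prm_thm Ω (Finset (Fin n)) {w : Finset (Fin n) // S ⊆ w} p hp (fun i => i.1)
    Subtype.val_injective
  have h2 := h1.H (fun u : {w : Finset (Fin n) // S ⊆ w} → Ω => ∑ i, (1 : ℤ) • (A (u i)).2 i₀)
  have h3 := sum_thm prd_thm prm_thm Ω {w : Finset (Fin n) // S ⊆ w} Unit (Fin m → ℤ) p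
    (fun ω => (A ω).2 i₀) (fun _ => 1) (fun _ => ⟨S, subset_rfl⟩) hp (fun a b _ => rfl)
  have h4 : H (prd p : (Unit → Ω) → ℝ) (fun w => ∑ i : Unit, (1 : ℤ) • (A (w i)).2 i₀) =
      H p (fun ω => (A ω).2 i₀) := by
    obtain ⟨_, h5, _⟩ := prd_thm Ω Unit ℕ p hp
    have h6 := (h5 ()).H (fun ω => (A ω).2 i₀)
    rw [← h6]
    congr 1
    funext w
    simp
  rw [h4] at h3
  refine h3.trans (le_of_eq ?_)
  rw [← h2]
  congr 1
  funext v
  rw [zq_sub, Prod.snd_sum, Finset.sum_apply]
  rfl

/-- Logarithm of the number of values. -/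
lemma few_le {h : Fin n → ℝ} {E K₀ : ℝ} (hh : ∀ i, h i ≠ 0 ∧ |h i| ≤ 1) (hE : 1 ≤ E)
    (hK : 1 ≤ K₀) :
    Real.log (2 * (K₀ * (E / ∏ i, |h i|)) + 1) ≤
      (Real.log (3 * K₀) + 1) * (1 + Real.log E + ∑ i, Real.log (1 / |h i|)) := by
  have habs : ∀ i, 0 < |h i| := fun i => abs_pos.2 (hh i).1
  have hPpos : 0 < ∏ i, |h i| := prod_pos fun i _ => habs i
  have hP1 : ∏ i, |h i| ≤ 1 := prod_le_one (fun i _ => abs_nonneg _) fun i _ => (hh i).2
  have h1 : 1 ≤ E / ∏ i, |h i| := by
    rw [le_div_iff₀ hPpos]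
    linarith
  have h2 : 1 ≤ K₀ * (E / ∏ i, |h i|) := by nlinarith
  have h3 : Real.log (2 * (K₀ * (E / ∏ i, |h i|)) + 1) ≤
      Real.log (3 * K₀) + Real.log E + ∑ i, Real.log (1 / |h i|) := by
    have e1 : Real.log (3 * K₀) + Real.log E + ∑ i, Real.log (1 / |h i|) =
        Real.log (3 * K₀ * (E / ∏ i, |h i|)) := by
      have e0 : Real.log (3 * K₀ * (E / ∏ i, |h i|)) =
          Real.log (3 * K₀) + Real.log (E / ∏ i, |h i|) :=
        Real.log_mul (by positivity) (by positivity)
      rw [e0, Real.log_div (by positivity) hPpos.ne', Real.log_prod (fun i _ => (habs i).ne')]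
      have : ∑ i, Real.log (1 / |h i|) = -∑ i, Real.log |h i| := by
        rw [← sum_neg_distrib]
        refine sum_congr rfl fun i _ => ?_
        rw [one_div, Real.log_inv]
      rw [this]
      ring
    rw [e1]
    apply Real.log_le_log (by positivity)
    linarith
  have h4 : 0 ≤ Real.log (3 * K₀) := Real.log_nonneg (by linarith)
  have h5 : 0 ≤ Real.log E := Real.log_nonneg hE
  have h6 : 0 ≤ ∑ i, Real.log (1 / |h i|) := sum_nonneg fun i _ =>
    Real.log_nonneg (by rw [le_div_iff₀ (habs i)]; linarith [(hh i).2])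
  nlinarith [mul_nonneg h4 h5, mul_nonneg h4 h6]

end KQ31

open KQ31 in
/-- **KQ**. -/
theorem kq (hIN : INStmt) (hBN : BNStmt) : KQStmt := by
  intro m n hn
  choose! Φ hsub hcard c d hrel using hIN n
  obtain ⟨hB1, hB2, _⟩ := hBN
  set D : ℝ := ∑ j ∈ range n, ∑ φ ∈ Φ j, (∑ S ∈ powersetCard (j + 1) univ \ Φ j, |c j φ S| +
    ∑ S ∈ powersetCard j univ, |d j φ S|) with hD
  have hD0 : 0 ≤ D := sum_nonneg fun _ _ => sum_nonneg fun _ _ =>
    add_nonneg (sum_nonneg fun _ _ => abs_nonneg _) (sum_nonneg fun _ _ => abs_nonneg _)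
  have hDj : ∀ j < n, ∀ φ ∈ Φ j, ∑ S ∈ powersetCard (j + 1) univ \ Φ j, |c j φ S| +
      ∑ S ∈ powersetCard j univ, |d j φ S| ≤ D := by
    intro j hj φ hφ
    refine le_trans ?_ (single_le_sum (f := fun j => ∑ φ ∈ Φ j,
      (∑ S ∈ powersetCard (j + 1) univ \ Φ j, |c j φ S| +
        ∑ S ∈ powersetCard j univ, |d j φ S|)) (fun _ _ => sum_nonneg fun _ _ =>
      add_nonneg (sum_nonneg fun _ _ => abs_nonneg _) (sum_nonneg fun _ _ => abs_nonneg _))
      (mem_range.2 hj))
    exact single_le_sum (f := fun φ => ∑ S ∈ powersetCard (j + 1) univ \ Φ j, |c j φ S| +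
        ∑ S ∈ powersetCard j univ, |d j φ S|) (fun _ _ =>
      add_nonneg (sum_nonneg fun _ _ => abs_nonneg _) (sum_nonneg fun _ _ => abs_nonneg _)) hφ
  set K₀ : ℝ := (D * (1 + n) + 1) * 2 ^ (n + 1) with hK₀
  have hK1 : 1 ≤ K₀ := by
    have h1 : (1 : ℝ) ≤ 2 ^ (n + 1) := one_le_pow₀ (by norm_num)
    have h2 : (1 : ℝ) ≤ D * (1 + n) + 1 := by
      have : 0 ≤ D * (1 + n) := by positivity
      linarith
    rw [hK₀]
    nlinarith
  have hlogK : 0 ≤ Real.log (3 * K₀) := Real.log_nonneg (by linarith)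
  refine ⟨2 ^ n * (m * (Real.log (3 * K₀) + 1)), by positivity, ?_⟩
  intro Ω _ p A h y E i₀ hp hh hE hA
  set q : (Finset (Fin n) → Ω) → ℝ := prd p with hq
  obtain ⟨hql, _, hprd⟩ := prd_thm Ω (Finset (Fin n)) (QL m n) p hp
  obtain ⟨_, _, hprd2⟩ := prd_thm Ω (Finset (Fin n)) (Fin m → ℤ) p hp
  set a : ℝ := H q (TQ A) with ha
  set b : ℝ := H p (fun ω => (A ω).2 i₀) with hb
  set few : ℝ := m * Real.log (2 * (K₀ * (E / ∏ i, |h i|)) + 1) with hfew
  have hz : ∀ S, H q (zq A S) ≤ a := fun S => H_zq_le hp A S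
  have hdir : ∀ S, b ≤ H q (fun v => (zq A S v).2 i₀) := fun S => H_dir_le hp A S i₀
  -- one level
  have hlev : ∀ j < n, H q (TS A (univ.filter fun S => S.card ≤ j + 1)) ≤
      H q (TS A (univ.filter fun S => S.card ≤ j)) +
        ((n.choose (j + 1) : ℝ) * a - ((Φ j).card : ℝ) * (b - few)) := by
    intro j hj
    set F : Finset (Finset (Fin n)) := univ.filter fun S => S.card ≤ j with hF
    set G : Finset (Finset (Fin n)) := powersetCard (j + 1) univ \ Φ j with hG
    have h1 := cost_many (q := q) A F (K := a) G (fun F' _ S _ =>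
      (cost_one hql A F' S).trans (add_le_add_right (hz S) _))
    have h2 := cost_many (q := q) A (F ∪ G) (K := a - b + few) (Φ j) (fun F' hF' S hS => by
      have hCH : CH q (fun v => (zq A S v).2 i₀) (TS A F') ≤ few := by
        have h3 := CH_le_vec hql.nonneg hql.sum_one (fun v => (zq A S v).2 i₀) (TS A F')
          (fun _ => K₀ * (E / ∏ i, |h i|)) (fun v v' _ _ hv k => by
            push_cast
            refine geo (by linarith) hh hA (hrel j hj) (TS_sl hv) ?_ ?_ i₀ hS k (hDj j hj S hS)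
            · intro R hR
              refine TS_zq hv (hF' (mem_union_left _ ?_))
              rw [hF, mem_filter]
              exact ⟨mem_univ _, (mem_powersetCard.1 hR).2.le⟩
            · intro R hR
              exact TS_zq hv (hF' (mem_union_right _ hR)))
        rw [Ex_const hql.sum_one] at h3
        exact h3
      refine (cost_two hql A F' S i₀ hCH).trans ?_
      have h4 := hz S
      have h5 := hdir S
      linarith)
    have h3 : F ∪ G ∪ Φ j = univ.filter fun S : Finset (Fin n) => S.card ≤ j + 1 := by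
      ext S
      simp only [hF, hG, mem_union, mem_filter, mem_univ, true_and, mem_sdiff,
        mem_powersetCard_univ]
      constructor
      · rintro ((h4 | h4) | h4)
        · omega
        · omega
        · have := mem_powersetCard_univ.1 (hsub j hj h4)
          omega
      · intro h4
        by_cases h5 : S ∈ Φ j
        · exact Or.inr h5
        · left
          by_cases h6 : S.card ≤ j
          · exact Or.inl h6
          · exact Or.inr ⟨by omega, h5⟩
    have h4 : (G.card : ℝ) = (n.choose (j + 1) : ℝ) - (Φ j).card := by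
      have h5 := card_sdiff_add_card_eq_card (hsub j hj)
      rw [card_powersetCard, card_univ, Fintype.card_fin] at h5
      have h6 : (G.card : ℝ) + (Φ j).card = n.choose (j + 1) := by exact_mod_cast h5
      linarith
    rw [h3] at h2
    rw [h4] at h1
    nlinarith [h1, h2]
  -- all levels
  have hall : ∀ J ≤ n, H q (TS A (univ.filter fun S => S.card ≤ J)) ≤
      H q (TS A (univ.filter fun S => S.card ≤ 0)) +
        ∑ j ∈ range J, ((n.choose (j + 1) : ℝ) * a - ((Φ j).card : ℝ) * (b - few)) := by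
    intro J
    induction J with
    | zero => intro _; simp
    | succ J ih =>
      intro hJ
      have h1 := ih (by omega)
      have h2 := hlev J (by omega)
      rw [sum_range_succ]
      linarith
  have hbase : H q (TS A (univ.filter fun S => S.card ≤ 0)) ≤
      ∑ w : Finset (Fin n), H p (fun ω => evq w (A ω)) + a := by
    have h1 : (univ.filter fun S : Finset (Fin n) => S.card ≤ 0) = insert ∅ ∅ := by
      ext S
      simp
    rw [h1]
    refine (cost_one hql A ∅ ∅).trans (add_le_add ?_ (hz ∅))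
    have h2 : H q (TS A ∅) ≤ H q (sl A) := H_mono hql.nonneg fun v v' _ _ hv =>
      TS_ext hv (by simp)
    exact h2.trans (le_of_eq (hprd2 fun w ω => evq w (A ω)))
  have hL : (2 : ℝ) ^ n * H p A ≤ H q (TS A (univ.filter fun S => S.card ≤ n - 1)) := by
    have h1 := hprd (fun _ => A)
    rw [sum_const, card_univ, Fintype.card_finset, Fintype.card_fin, nsmul_eq_mul] at h1
    push_cast at h1
    rw [← h1]
    refine H_mono hql.nonneg fun v v' _ _ hv => ?_
    funext w
    refine det_all (TS_sl hv) (fun S hS => TS_zq hv ?_) w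
    rw [mem_filter]
    exact ⟨mem_univ _, by omega⟩
  have hfin := hall (n - 1) (by omega)
  have hs1 : ∑ j ∈ range (n - 1), ((n.choose (j + 1) : ℝ) * a - ((Φ j).card : ℝ) * (b - few)) =
      (2 ^ n - 2) * a - (KQ n - 1) * (b - few) := by
    rw [sum_sub_distrib, ← sum_mul, ← sum_mul]
    have e1 : ∑ j ∈ range (n - 1), (n.choose (j + 1) : ℝ) = 2 ^ n - 2 := by
      obtain ⟨k, rfl⟩ : ∃ k, n = k + 1 := ⟨n - 1, by omega⟩
      have h1 := Nat.sum_range_choose (k + 1)
      rw [sum_range_succ, sum_range_succ', Nat.choose_self, Nat.choose_zero_right] at h1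
      have h2 : ((∑ i ∈ range k, (k + 1).choose (i + 1) + 1 + 1 : ℕ) : ℝ) = ((2 ^ (k + 1) : ℕ) : ℝ) := by
        exact_mod_cast h1
      push_cast at h2
      rw [Nat.add_sub_cancel]
      linarith
    have e2 : ∑ j ∈ range (n - 1), ((Φ j).card : ℝ) = KQ n - 1 := by
      have h1 := hB1 n hn
      have h2 : ∑ j ∈ range (n - 1), ((Φ j).card : ℝ) =
          ∑ j ∈ range (n - 1), ((min (n.choose j) (n.choose (j + 1)) : ℕ) : ℝ) :=
        sum_congr rfl fun j hj => by rw [hcard j (by have := mem_range.1 hj; omega)]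
      rw [h2]
      have h3 : ((∑ j ∈ range (n - 1), min (n.choose j) (n.choose (j + 1)) +
          (1 + n.choose (n / 2)) : ℕ) : ℝ) = ((2 ^ n : ℕ) : ℝ) := by exact_mod_cast h1
      push_cast at h3 ⊢
      unfold KQ
      linarith
    rw [e1, e2]
  rw [hs1] at hfin
  have hKQ := hB2 n hn
  have hKQ2 : KQ n - 1 ≤ 2 ^ n := by
    unfold KQ
    have : (0 : ℝ) ≤ (n.choose (n / 2) : ℝ) := by positivity
    linarith
  have hfew2 : few ≤ m * (Real.log (3 * K₀) + 1) *
      (1 + Real.log E + ∑ i, Real.log (1 / |h i|)) := by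
    have h1 : few ≤ m * ((Real.log (3 * K₀) + 1) *
        (1 + Real.log E + ∑ i, Real.log (1 / |h i|))) :=
      mul_le_mul_of_nonneg_left (few_le hh hE hK1) (by positivity)
    exact h1.trans (le_of_eq (by ring))
  have hnn : 0 ≤ m * (Real.log (3 * K₀) + 1) *
      (1 + Real.log E + ∑ i, Real.log (1 / |h i|)) := by
    have h5 : 0 ≤ Real.log E := Real.log_nonneg hE
    have h6 : 0 ≤ ∑ i, Real.log (1 / |h i|) := sum_nonneg fun i _ =>
      Real.log_nonneg (by rw [le_div_iff₀ (abs_pos.2 (hh i).1)]; linarith [(hh i).2])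
    positivity
  have hprodf : (KQ n - 1) * few ≤ 2 ^ n * (m * (Real.log (3 * K₀) + 1)) *
      (1 + Real.log E + ∑ i, Real.log (1 / |h i|)) := by
    calc (KQ n - 1) * few ≤ (KQ n - 1) * (m * (Real.log (3 * K₀) + 1) *
          (1 + Real.log E + ∑ i, Real.log (1 / |h i|))) :=
          mul_le_mul_of_nonneg_left hfew2 (by linarith)
      _ ≤ 2 ^ n * (m * (Real.log (3 * K₀) + 1) *
          (1 + Real.log E + ∑ i, Real.log (1 / |h i|))) :=
          mul_le_mul_of_nonneg_right hKQ2 hnn
      _ = _ := by ring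
  have hchain : (2 : ℝ) ^ n * H p A ≤ ∑ w : Finset (Fin n), H p (fun ω => evq w (A ω)) + a +
      ((2 ^ n - 2) * a - (KQ n - 1) * (b - few)) := by
    linarith
  have e3 : (2 ^ n - 1) * (a - H p A) = 2 ^ n * a - a - 2 ^ n * H p A + H p A := by ring
  have e4 : (KQ n - 1) * (b - few) = (KQ n - 1) * b - (KQ n - 1) * few := by ring
  have e5 : ((2 : ℝ) ^ n - 2) * a = 2 ^ n * a - 2 * a := by ring
  rw [e3]
  linarith

end Pool.STE
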